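import Pool.Agent.Helper17.PP.GoalsC1

/-!
# Project PP (MP_fc6b1e_nt), packet C_CNT: from bad sets to `cnt₂`
-/

namespace Pool.Agent.Helper28.PP

open Finset Pool.Agent.Helper17.PP

variable {p : ℕ} {B B₀ k U Λ C : Type} [Field k] [Algebra (ZMod p) k] [AddCommGroup U] [Module k U]
  [AddCommGroup Λ] [Module k Λ] [AddCommGroup C]

/-- The left side of the condition is homogeneous. -/
theorem R_smul (S : Sys p B B₀ k U Λ C) (b : Finset B) (u : k) (x : U) (c : B → k) (q : B) :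
    S.R b (u • x) (fun q' ↦ u * c q') q = u * S.R b x c q := by
  classical
  unfold Sys.R
  have h : ∑ q' ∈ b.erase q, u * c q' * S.a q q' = u * ∑ q' ∈ b.erase q, c q' * S.a q q' := by
    rw [Finset.mul_sum]
    exact Finset.sum_congr rfl fun q' _ ↦ by ring
  rw [map_smul, smul_eq_mul, h]
  ring

omit [Algebra (ZMod p) k] in
theorem lam_smul (S : Sys p B B₀ k U Λ C) (b : Finset B) (u : k) (x : U) (c : B → k) :
    S.lam₀ (u • x) + ∑ q' ∈ b, S.lam q' (u * c q') =
      u • (S.lam₀ x + ∑ q' ∈ b, S.lam q' (c q')) := by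
  rw [map_smul, smul_add, Finset.smul_sum]
  congr 1
  refine Finset.sum_congr rfl fun q' _ ↦ ?_
  rw [← smul_eq_mul, map_smul]

theorem c_cnt : Pool.Agent.Helper17.PP.C_CNT := by
  classical
  intro p _ B B₀ k U Λ C _ _ _ _ _ _ _ _ _ S E j₀ b hb h1 h2
  obtain ⟨x, c, hs, hne⟩ := hb
  obtain ⟨q₀, h3, h4⟩ := h1 x c hs hne
  obtain ⟨q, hq, hmax⟩ := Finset.exists_max_image (b.filter fun q' ↦ c q' ≠ 0) S.bl
    ⟨q₀, mem_filter.2 ⟨(hs.supp q₀ h3).1, h3⟩⟩
  rw [mem_filter] at hq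
  have hle : ∀ q', c q' ≠ 0 → S.bl q' ≤ S.bl q := fun q' h ↦
    hmax q' (mem_filter.2 ⟨(hs.supp q' h).1, h⟩)
  have hj : j₀ ≤ S.bl q := h4.trans (hle q₀ h3)
  have hw : S.Wt E b q := h2 q hq.1 (hs.supp q hq.2).2 hj
  refine ⟨q, hw, hj, ?_⟩
  have h5 : Fintype.card k - 1 = ((univ : Finset k).erase 0).card := by
    rw [card_erase_of_mem (mem_univ _), card_univ]
  rw [h5]
  unfold Sys.cnt₂
  refine card_le_card_of_injOn (fun u : k ↦ (u • x, fun q' ↦ u * c q')) ?_ ?_
  · intro u hu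
    have hu0 : u ≠ 0 := (mem_erase.1 hu).1
    simp only [coe_filter, Set.mem_ofPred_eq, mem_product, mem_univ, true_and]
    refine ⟨?_, ⟨?_, ?_, ?_, ?_⟩, ?_⟩
    · rw [mem_lab]
      intro q' hq'
      by_contra h
      exact hq' (hs.supp q' (right_ne_zero_of_mul h)).1
    · intro q' h
      have hc : c q' ≠ 0 := right_ne_zero_of_mul h
      by_cases hqq : q' = q
      · exact Or.inl hqq
      · refine Or.inr ?_
        have h6 := hs.supp q' hc
        unfold Sys.rs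
        rw [mem_filter, mem_erase]
        exact ⟨⟨hqq, h6.1⟩, h6.2, lt_of_le_of_ne (hle q' hc) (hw.uniq q' h6.1 hqq h6.2)⟩
    · exact mul_ne_zero hu0 hq.2
    · rw [lam_smul, hs.lam, smul_zero]
    · intro q' h
      unfold Sys.rg at h
      rw [mem_filter, mem_erase] at h
      rw [R_smul, hs.loc q' h.1.2 h.2.1, mul_zero]
    · rw [R_smul, hs.loc q hw.mem hw.spl, mul_zero]
  · intro u _ v _ huv
    have h7 : u * c q = v * c q := congrFun (Prod.mk.inj huv).2 q
    exact mul_right_cancel₀ hq.2 h7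

end Pool.Agent.Helper28.PP
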